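import Pool.Agent.HSG.Own

set_option autoImplicit false

/-!
# The width bound for the tangent cone of a numerical semigroup ring
-/

namespace Pool.Agent.Results.MP_6a591b_al.TangentConeWidth

universe u

open Pool.Agent.HSG

/-- Let `k` be a field and `g 0 < ... < g n` positive integers which generate a numerical semigroup
`Γ` (finite complement in `ℕ`), `m` the maximal ideal of `R = k⟦Γ⟧`, `S = k[x_0, ..., x_n]`.

(1) The map `S → gr_m(R)` with `x_j ↦` the class of `t ^ (g j)` is onto, so that
`gr_m(R) = S / coneIdeal k g`.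

(2) For `i ≥ 1` the `i`-th Betti number of `gr_m(R)` over `S` is at most
`i * binom (width + 1, i + 1)`, `width = g n - g 0`, and even (3) at most
`i * binom (width / q + 1, i + 1)` for every common divisor `q` of the differences `g j - g 0`. -/
theorem result (k : Type u) [Field k] (n : ℕ) (g : Fin (n + 1) → ℕ) (hmono : StrictMono g)
    (hpos : ∀ j, 0 < g j) (hfin : ((AddSubmonoid.closure (Set.range g) : Set ℕ)ᶜ).Finite) :
    OntoGr k g ∧
    (∀ i : ℕ, 1 ≤ i → betti i (coneIdeal k g) ≤
      ((i * Nat.choose (g (Fin.last n) - g 0 + 1) (i + 1) : ℕ) : Cardinal)) ∧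
    ∀ q : ℕ, 0 < q → (∀ j, q ∣ g j - g 0) → ∀ i : ℕ, 1 ≤ i → betti i (coneIdeal k g) ≤
      ((i * Nat.choose ((g (Fin.last n) - g 0) / q + 1) (i + 1) : ℕ) : Cardinal) := by
  refine ⟨exists_form k g hpos hfin, fun i hi => ?_,
    fun q hq0 hq i hi => betti_le k g hmono hpos hfin i hi q hq0 hq⟩
  have h := betti_le k g hmono hpos hfin i hi 1 one_pos (fun j => one_dvd _)
  rwa [Nat.div_one] at h

end Pool.Agent.Results.MP_6a591b_al.TangentConeWidth
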